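import Mathlib
import Pool.Agent.Y202.Z.ZD
import Pool.Agent.J4H35.LM.F

/-! From the von Mangoldt sums to the discrepancies on a dyadic box. -/

set_option autoImplicit false

namespace Pool.Agent.J4H35.ZZ

open Finset Filter Pool.Agent.Y826.Z Pool.Agent.H378R2 Pool.Agent.Y202.Z Pool.Agent.J4H35.LM

/-- one dyadic box -/
def S_Z3 : Prop := ∀ (K : ℕ) (h : Fin K → ℤ) (W b : ℕ), Hyp h W b → ∀ δ : ℝ, 0 < δ → ∀ A : ℕ,
  ∀ᶠ X : ℝ in atTop, ∀ (Q : Fin K → ℝ), (∀ j, 0 < Q j) → ∏ j, Q j ≤ X ^ (11 / 20 : ℝ) → GroupOK3 δ X Q →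
  ∀ bq, Cls h W b bq →
  ∀ S : Finset (Fin K → ℕ), (∀ q ∈ S, Squarefree (W * Pr q) ∧ (∀ j, Q j < q j ∧ (q j : ℝ) ≤ 2 * Q j)) →
    ∑ q ∈ S, |H378R2.EPhi X (W * Pr q) (bq q)| ≤ X / (Real.log X) ^ A

/-- one dyadic box -/
theorem zbox3 (hS : S_LAM3) : S_Z3 := by
  classical
  intro K h W b H δ hδ A
  obtain ⟨ε, hε, hL⟩ := hS K h W b H δ hδ
  set e' : ℝ := min ε (1 / (4 * (K + 1))) with he'
  have he0 : 0 < e' := lt_min hε (by positivity)
  have he1 : e' ≤ ε := min_le_left _ _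
  have he2 : e' * K ≤ 1 / 4 := by
    have h1 : e' ≤ 1 / (4 * (K + 1)) := min_le_right _ _
    calc e' * K ≤ 1 / (4 * (K + 1)) * K := mul_le_mul_of_nonneg_right h1 (by positivity)
      _ = 1 / 4 * (K / (K + 1)) := by field_simp
      _ ≤ 1 / 4 * 1 := by
          refine mul_le_mul_of_nonneg_left ?_ (by norm_num)
          rw [div_le_one (by positivity)]
          linarith
      _ = _ := by ring
  obtain ⟨B0, hB0⟩ := hL (A + 1)
  set B : ℕ := max B0 1 with hB
  have hB1 : 1 ≤ B := le_max_right _ _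
  have hBR : (1 : ℝ) ≤ B := by exact_mod_cast hB1
  have hl2 : 0 < Real.log 2 := Real.log_pos (by norm_num)
  have ev1 := hB0 B (le_max_left _ _)
  have ev2 := Pool.Agent.H95R2.BG.bv_tent W H.wpos (1 / 4) (by norm_num) K (A + 2 * K + 2)
  have ev3 := Real.tendsto_log_atTop.eventually
    (ev_exp (show 0 < Real.log 2 * e' / B by positivity) (4 * K + A + 3))
  have ev4 := ev_pow (4 * K + A + 3) (show (0 : ℝ) < 1 / 2 by norm_num)
  have ev5 := Real.tendsto_log_atTop.eventually_ge_atTop ((8 : ℝ) * 2 ^ (4 * K) + 4)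
  have ev6 := (tendsto_rpow_atTop (show (0 : ℝ) < 9 / 20 by norm_num)).eventually_ge_atTop
    ((W : ℝ) * 2 ^ K)
  filter_upwards [ev1, ev2, ev3, ev4, ev5, ev6, eventually_ge_atTop 3] with X x1 x2 x3 x4 x5 x6 x7
  intro Q hQ hQX hGr bq hb S hSq
  have hX1 : 1 ≤ X := by linarith
  have hX0 : 0 < X := by linarith
  set L : ℝ := Real.log X with hLdef
  have h2K : (1 : ℝ) ≤ 2 ^ (4 * K) := one_le_pow₀ (by norm_num)
  have hL12 : 12 ≤ L := by linarith
  have hL0 : 0 < L := by linarith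
  have hLe : Real.exp 1 < L := by
    have := Pool.Agent.H378R2.exp_one_lt_three'
    linarith
  have hlog3 : Real.log (3 * X) ≤ 2 * L := by
    rw [Real.log_mul (by norm_num) hX0.ne']
    have : Real.log 3 ≤ Real.log X := Real.log_le_log (by norm_num) x7
    linarith
  have hlog30 : 0 ≤ Real.log (3 * X) := Real.log_nonneg (by linarith)
  set D : ℕ := D0 X B with hDdef
  have hLB : (1 : ℝ) ≤ L ^ B := one_le_pow₀ (by linarith)
  have hD1 : 1 ≤ D := by
    rw [hDdef]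
    unfold D0
    exact Nat.le_floor (by push_cast; exact hLB)
  have hDL : (D : ℝ) ≤ L ^ B := by
    rw [hDdef]
    unfold D0
    exact Nat.floor_le (by positivity)
  -- sizes
  have hsize : ∀ q ∈ S, ((W * Pr q : ℕ) : ℝ) ≤ X := by
    intro q hq
    obtain ⟨h1, h2⟩ := hSq q hq
    have h3 : (Pr q : ℝ) ≤ 2 ^ K * X ^ (11 / 20 : ℝ) := by
      calc (Pr q : ℝ) = ∏ j, (q j : ℝ) := by unfold Pr; rw [Nat.cast_prod]
        _ ≤ ∏ j, (2 * Q j) := Finset.prod_le_prod (fun _ _ => by positivity) fun j _ => (h2 j).2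
        _ = 2 ^ K * ∏ j, Q j := by
            rw [Finset.prod_mul_distrib, Finset.prod_const, Finset.card_univ, Fintype.card_fin]
        _ ≤ _ := mul_le_mul_of_nonneg_left hQX (by positivity)
    push_cast
    calc (W : ℝ) * Pr q ≤ W * (2 ^ K * X ^ (11 / 20 : ℝ)) :=
          mul_le_mul_of_nonneg_left h3 (by positivity)
      _ = (W * 2 ^ K) * X ^ (11 / 20 : ℝ) := by ring
      _ ≤ X ^ (9 / 20 : ℝ) * X ^ (11 / 20 : ℝ) :=
          mul_le_mul_of_nonneg_right x6 (by positivity)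
      _ = X := by
          rw [← Real.rpow_add hX0]
          norm_num
  -- the two parts
  set S1 := S.filter (fun q => (Pr (sm D q) : ℝ) ≤ X ^ e') with hS1
  set S2 := S.filter (fun q => ¬ (Pr (sm D q) : ℝ) ≤ X ^ e') with hS2
  have hsplit : ∑ q ∈ S, |EPhi X (W * Pr q) (bq q)| =
      ∑ q ∈ S1, |EPhi X (W * Pr q) (bq q)| + ∑ q ∈ S2, |EPhi X (W * Pr q) (bq q)| :=
    (Finset.sum_filter_add_sum_filter_not _ _ _).symm
  have hXe : X ^ e' = Real.exp (e' * L) := by
    rw [Real.rpow_def_of_pos hX0, mul_comm]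
  have hLA : 0 < L ^ (A + 1) := by positivity
  have hk1 : (1 + L) ^ (2 * K) ≤ (2 * L) ^ (2 * K) :=
    pow_le_pow_left₀ (by linarith) (by linarith) _
  have hk2 : (1 + L) ^ (4 * K) ≤ (2 * L) ^ (4 * K) :=
    pow_le_pow_left₀ (by linarith) (by linarith) _
  -- part 2
  have hpart2 : ∑ q ∈ S2, |EPhi X (W * Pr q) (bq q)| ≤ X / L ^ (A + 1) := by
    set lam := Real.exp (Real.log 2 * (e' * L / (B * Real.log L))) with hlam
    have hlam0 : 0 < lam := Real.exp_pos _
    have h1 := sum_rough H.wpos hX1 bq hlam0 S2 (by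
      intro q hq
      rw [hS2, mem_filter] at hq
      refine ⟨(hSq q hq.1).1, hsize q hq.1, ?_⟩
      refine lam_le hB1 hLe hD1 hDL (sqf_right (hSq q hq.1).1) ?_
      rw [← hXe]
      exact not_le.1 hq.2)
    refine h1.trans ?_
    have h2 : L ^ (4 * K + A + 3) ≤ lam := by
      have h3 : Real.log 2 * (e' * L / (B * Real.log L)) =
          Real.log 2 * e' / B * L / Real.log L := by
        have hlL : Real.log L ≠ 0 := by
          have : 1 < Real.log L := by
            rw [Real.lt_log_iff_exp_lt hL0]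
            exact hLe
          linarith
        field_simp
      rw [hlam, h3]
      exact x3
    rw [div_mul_eq_mul_div, div_le_div_iff₀ hlam0 hLA]
    calc 4 * X * Real.log (3 * X) * (1 + L) ^ (4 * K) * L ^ (A + 1)
        ≤ 4 * X * (2 * L) * (2 * L) ^ (4 * K) * L ^ (A + 1) := by
          refine mul_le_mul_of_nonneg_right ?_ (by positivity)
          exact mul_le_mul (mul_le_mul_of_nonneg_left hlog3 (by positivity)) hk2
            (pow_nonneg (by linarith) _) (by positivity)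
      _ = X * ((8 * 2 ^ (4 * K)) * L ^ (4 * K + A + 2)) := by
          rw [mul_pow]; ring
      _ ≤ X * (L * L ^ (4 * K + A + 2)) := by
          refine mul_le_mul_of_nonneg_left ?_ hX0.le
          exact mul_le_mul_of_nonneg_right (by linarith) (by positivity)
      _ = X * L ^ (4 * K + A + 3) := by ring
      _ ≤ X * lam := mul_le_mul_of_nonneg_left h2 hX0.le
  -- part 1
  obtain ⟨Bw, hBw1, hBw2⟩ := Pool.Agent.H95R2.BG.S2.worst X W H.wpos
  have hbv := x2 Bw hBw1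
  set V := ∑ m ∈ (Icc 1 ⌊X ^ (1 / 4 : ℝ)⌋₊).filter (fun m => Squarefree m),
        (m.divisors.card : ℝ) ^ K * |EPhi X (W * m) (Bw m)| with hV
  set T1 : (Fin K → ℕ) → ℝ := fun q => ∑ n ∈ Icc 1 ⌊3 * X⌋₊,
    Phi (n / X) * ArithmeticFunction.vonMangoldt n * dl h W b D q n with hT1
  set cs : (Fin K → ℕ) → ℝ := fun q => if 0 ≤ EPhi X (W * Pr q) (bq q) then 1 else -1 with hcs
  have hcs1 : ∀ q, |cs q| ≤ 1 := by
    intro q
    rw [hcs]
    dsimp only
    split_ifs <;> simp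
  have hpos4 : (0 : ℝ) ≤ X ^ (1 / 4 : ℝ) := by positivity
  have hpart1 : ∑ q ∈ S1, |EPhi X (W * Pr q) (bq q)| ≤ X / L ^ (A + 1) +
      ((1 + L) ^ (2 * K) * V +
        (1 + L) ^ (4 * K) * ((⌊X ^ (1 / 4 : ℝ)⌋₊ : ℕ) * Real.log (3 * X))) := by
    have h1 : ∑ q ∈ S1, |EPhi X (W * Pr q) (bq q)| ≤
        ∑ q ∈ S1, cs q * T1 q + ∑ q ∈ S1, |EPhi X (W * Pr q) (bq q) - T1 q| := by
      rw [← Finset.sum_add_distrib]
      refine Finset.sum_le_sum fun q _ => ?_
      rw [hcs]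
      dsimp only
      split_ifs with h0
      · rw [abs_of_nonneg h0]
        have := le_abs_self (EPhi X (W * Pr q) (bq q) - T1 q)
        linarith
      · rw [abs_of_neg (not_le.1 h0)]
        have := neg_abs_le (EPhi X (W * Pr q) (bq q) - T1 q)
        linarith
    have h2 : ∑ q ∈ S1, cs q * T1 q ≤ X / L ^ (A + 1) := by
      refine (le_abs_self _).trans ?_
      refine x1 Q hQ hQX hGr S1 ?_ cs hcs1
      intro q hq
      rw [hS1, mem_filter] at hq
      refine ⟨(hSq q hq.1).1, (hSq q hq.1).2, hq.2.trans ?_⟩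
      exact Real.rpow_le_rpow_of_exponent_le hX1 he1
    have hEM : ⌊X ^ e'⌋₊ ^ K ≤ ⌊X ^ (1 / 4 : ℝ)⌋₊ := by
      refine Nat.le_floor ?_
      push_cast
      calc ((⌊X ^ e'⌋₊ : ℕ) : ℝ) ^ K ≤ (X ^ e') ^ K :=
            pow_le_pow_left₀ (by positivity) (Nat.floor_le (by positivity)) K
        _ = X ^ (e' * K) := by rw [← Real.rpow_natCast, ← Real.rpow_mul hX0.le]
        _ ≤ X ^ (1 / 4 : ℝ) := Real.rpow_le_rpow_of_exponent_le hX1 he2
    have h3 := sum_diff (D := D) H hX1 hb Bw hBw2 hEM S1 (by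
      intro q hq
      rw [hS1, mem_filter] at hq
      exact ⟨(hSq q hq.1).1, hsize q hq.1, Nat.le_floor hq.2⟩)
    have h4 : ∑ q ∈ S1, |EPhi X (W * Pr q) (bq q) - T1 q| ≤
        ∑ q ∈ S1, (1 / ((Pr (ro D q)).totient : ℝ)) *
          (|EPhi X (W * Pr (sm D q)) (bq (sm D q))| +
          (Pr (ro D q)).primeFactors.card * Real.log (3 * X)) := by
      refine Finset.sum_le_sum fun q hq => ?_
      rw [hS1, mem_filter] at hq
      exact diff_le D hb (hSq q hq.1).1 hX1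
    linarith
  have hVbd : (1 + L) ^ (2 * K) * V ≤ X / L ^ (A + 1) := by
    have hV0 : V ≤ X / L ^ (A + 2 * K + 2) := hbv
    calc (1 + L) ^ (2 * K) * V ≤ (2 * L) ^ (2 * K) * (X / L ^ (A + 2 * K + 2)) := by
          refine mul_le_mul hk1 hV0 ?_ (by positivity)
          exact Finset.sum_nonneg fun m _ => by positivity
      _ = 2 ^ (2 * K) / L * (X / L ^ (A + 1)) := by
          rw [mul_pow]
          field_simp
          ring
      _ ≤ 1 * (X / L ^ (A + 1)) := by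
          refine mul_le_mul_of_nonneg_right ?_ (by positivity)
          rw [div_le_one hL0]
          have h1 : (2 : ℝ) ^ (2 * K) ≤ 2 ^ (4 * K) :=
            pow_le_pow_right₀ (by norm_num) (by omega)
          linarith
      _ = _ := one_mul _
  have hlast : (1 + L) ^ (4 * K) * ((⌊X ^ (1 / 4 : ℝ)⌋₊ : ℕ) * Real.log (3 * X)) ≤
      X / L ^ (A + 1) := by
    have hfl : ((⌊X ^ (1 / 4 : ℝ)⌋₊ : ℕ) : ℝ) ≤ X ^ (1 / 4 : ℝ) := Nat.floor_le hpos4
    rw [le_div_iff₀ hLA]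
    calc (1 + L) ^ (4 * K) * ((⌊X ^ (1 / 4 : ℝ)⌋₊ : ℕ) * Real.log (3 * X)) * L ^ (A + 1)
        ≤ (2 * L) ^ (4 * K) * (X ^ (1 / 4 : ℝ) * (2 * L)) * L ^ (A + 1) := by
          refine mul_le_mul_of_nonneg_right ?_ (by positivity)
          refine mul_le_mul hk2 (mul_le_mul hfl hlog3 hlog30 hpos4) ?_ (by positivity)
          exact mul_nonneg (by positivity) hlog30
      _ = X ^ (1 / 4 : ℝ) * ((2 * 2 ^ (4 * K)) * L ^ (4 * K + A + 2)) := by
          rw [mul_pow]; ring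
      _ ≤ X ^ (1 / 4 : ℝ) * (L * L ^ (4 * K + A + 2)) := by
          refine mul_le_mul_of_nonneg_left ?_ hpos4
          exact mul_le_mul_of_nonneg_right (by linarith) (by positivity)
      _ = X ^ (1 / 4 : ℝ) * L ^ (4 * K + A + 3) := by ring
      _ ≤ X ^ (1 / 4 : ℝ) * X ^ (1 / 2 : ℝ) := mul_le_mul_of_nonneg_left x4 hpos4
      _ = X ^ (3 / 4 : ℝ) := by
          rw [← Real.rpow_add hX0]
          norm_num
      _ ≤ X ^ (1 : ℝ) := Real.rpow_le_rpow_of_exponent_le hX1 (by norm_num)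
      _ = X := Real.rpow_one X
  have hfin : 4 * (X / L ^ (A + 1)) ≤ X / L ^ A := by
    rw [pow_succ, ← div_div, mul_div_assoc']
    rw [div_le_iff₀ hL0]
    have : 0 ≤ X / L ^ A := by positivity
    nlinarith
  rw [hsplit]
  linarith

end Pool.Agent.J4H35.ZZ
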