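import Mathlib
import Pool.Agent.Y950.Z.ZZ
import Pool.Agent.J4H35.ZZ.Z

/-! The boxes satisfy the grouping condition. -/

set_option autoImplicit false

open Finset Filter

namespace Pool.Agent.J4H35.ZZ

open Pool.Agent.Y826.Z Pool.Agent.Y950.Z Pool.Agent.J4H35.LM
open Pool.Agent.J4H35.SM (SzS)

/-- the condition in terms of exponents -/
def GoodT3 {K : ℕ} (δ : ℝ) (t : Fin K → ℝ) : Prop :=
  (∀ x : Fin K → ℝ, (∀ j, -δ ≤ x j ∧ x j ≤ t j) → 1 / 2 - δ ≤ ∑ j, x j → ∀ ν : ℝ, 3 / 8 - δ ≤ ν → ν ≤ 1 / 2 + δ →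
  ∃ g : Fin K → Fin 5, ∀ y : Fin 5 → ℝ, (∀ i, y i = ∑ j ∈ univ.filter (fun j => g j = i), x j) →
    ∀ η : ℝ, η = max 0 (y 0 + y 1 + 2 * y 2 + 2 * y 3 + 2 * y 4 - (1 - ν)) →
    y 0 + y 1 ≤ ν - δ ∧ y 0 + y 1 + 2 * y 2 + 2 * y 3 ≤ 1 - ν - δ ∧ y 0 + 2 * y 2 + 4 * y 4 + 4 * η ≤ ν - δ ∧
      y 1 + 2 * y 3 + 8 * η ≤ 2 * ν - δ ∧ 8 * η + δ ≤ y 1 + 2 * y 3) ∧
  (∀ x : Fin K → ℝ, (∀ j, -δ ≤ x j ∧ x j ≤ t j) → 1 / 2 - δ ≤ ∑ j, x j → ∀ ν : ℝ, 5 / 16 - δ ≤ ν → ν ≤ 3 / 8 + δ →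
  ∃ g : Fin K → Fin 5, (∀ j, g j ≠ 4) ∧
    ∀ y : Fin 5 → ℝ, (∀ i, y i = ∑ j ∈ univ.filter (fun j => g j = i), x j) →
    ∀ η : ℝ, η = max 0 (y 0 + y 1 + 2 * y 2 + 2 * y 3 - (1 - ν)) →
    y 0 + y 1 ≤ ν - δ ∧ y 0 + 2 * y 2 + 2 * η ≤ ν - δ ∧
      y 1 + 2 * y 3 + 4 * η ≤ 2 * ν - δ ∧ 4 * η + δ ≤ y 1 + 2 * y 3)

open Classical in
/-- all the tuples up to given sizes, with divisor weights -/
def S_ZZ3 : Prop := ∀ (K : ℕ) (h : Fin K → ℤ) (W b : ℕ), Hyp h W b → ∀ (t : Fin K → ℝ), (∀ j, 0 ≤ t j) →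
  ∑ j, t j ≤ 27 / 50 → (∃ δ : ℝ, 0 < δ ∧ GoodT3 δ t) → ∀ bq, Cls h W b bq → ∀ A C : ℕ,
  ∀ᶠ X : ℝ in atTop,
    ∑ q ∈ (Fintype.piFinset (fun j => Icc 1 ⌊X ^ (t j)⌋₊)).filter (fun q => Squarefree (W * Pr q)),
      tau (Pr q) ^ C * |H378R2.EPhi X (W * Pr q) (bq q)| ≤ X / (Real.log X) ^ A

lemma GoodT3_mono {K : ℕ} {δ δ' : ℝ} {t : Fin K → ℝ} (hd : δ' ≤ δ) (hG : GoodT3 δ t) :
    GoodT3 δ' t := by
  refine ⟨?_, ?_⟩
  · intro x hx hs ν h1 h2
    obtain ⟨g, hg⟩ := hG.1 x (fun j => ⟨by linarith [(hx j).1], (hx j).2⟩) (by linarith) ν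
      (by linarith) (by linarith)
    refine ⟨g, fun y hy η hη => ?_⟩
    obtain ⟨a1, a2, a3, a4, a5⟩ := hg y hy η hη
    exact ⟨by linarith, by linarith, by linarith, by linarith, by linarith⟩
  · intro x hx hs ν h1 h2
    obtain ⟨g, hg4, hg⟩ := hG.2 x (fun j => ⟨by linarith [(hx j).1], (hx j).2⟩) (by linarith) ν
      (by linarith) (by linarith)
    refine ⟨g, hg4, fun y hy η hη => ?_⟩
    obtain ⟨a1, a2, a3, a4⟩ := hg y hy η hη
    exact ⟨by linarith, by linarith, by linarith, by linarith⟩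

lemma groupA {K : ℕ} {δ : ℝ} (hδ : 0 < δ) (hδ1 : δ ≤ 1 / 10) {t : Fin K → ℝ} (hG : GoodT3 δ t) :
    ∀ᶠ X : ℝ in atTop, ∀ Q : Fin K → ℝ, (∀ j, 1 / 2 ≤ Q j) → (∀ j, Q j ≤ X ^ t j) →
      X ^ (1 / 2 - δ) ≤ ∏ j, Q j → ∀ M N : ℕ, X / 16 ≤ (M : ℝ) * N → (M : ℝ) * N ≤ 16 * X →
      X ^ (3 / 8 - δ / 4 : ℝ) ≤ N → (N : ℝ) ≤ 16 * X ^ (1 / 2 : ℝ) →
      ∃ g : Fin K → Fin 5, Sz (δ / 4) X M N (szg Q g 0) (szg Q g 1) (szg Q g 2) (szg Q g 3) (szg Q g 4) := by
  have e1 : ∀ᶠ X : ℝ in atTop, Real.log 16 ≤ δ * Real.log X :=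
    (Real.tendsto_log_atTop.const_mul_atTop hδ).eventually_ge_atTop _
  have e2 : ∀ᶠ X : ℝ in atTop, (16 : ℝ) ^ 8 ≤ X ^ (3 * δ / 4) :=
    (tendsto_rpow_atTop (by positivity)).eventually_ge_atTop _
  have e3 : ∀ᶠ X : ℝ in atTop, (16 : ℝ) ≤ X ^ (1 / 12 : ℝ) :=
    (tendsto_rpow_atTop (by norm_num)).eventually_ge_atTop _
  filter_upwards [eventually_gt_atTop 1, e1, e2, e3] with X hX1 hX2 hX3 hX4
  intro Q hQ1 hQ2 hQ3 M N hMN1 hMN2 hN1 hN2
  have hX0 : 0 < X := by linarith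
  have hL : 0 < Real.log X := Real.log_pos hX1
  have hQ0 : ∀ j, 0 < Q j := fun j => lt_of_lt_of_le (by norm_num) (hQ1 j)
  have hNpos : (0 : ℝ) < N := lt_of_lt_of_le (by positivity) hN1
  have hMpos : (0 : ℝ) < M := by
    by_contra h
    have : (M : ℝ) = 0 := le_antisymm (not_lt.1 h) (Nat.cast_nonneg _)
    rw [this, zero_mul] at hMN1
    linarith
  set L := Real.log X with hLdef
  have hlog2 : Real.log 2 ≤ Real.log 16 := Real.log_le_log (by norm_num) (by norm_num)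
  obtain ⟨g, hg⟩ := hG.1 (fun j => Real.log (Q j) / L) (fun j => by
      constructor
      · rw [le_div_iff₀ hL]
        have : Real.log (1 / 2) ≤ Real.log (Q j) := Real.log_le_log (by norm_num) (hQ1 j)
        rw [one_div, Real.log_inv] at this
        linarith
      · rw [div_le_iff₀ hL]
        have := Real.log_le_log (hQ0 j) (hQ2 j)
        rwa [Real.log_rpow hX0] at this) (by
      rw [← Finset.sum_div, le_div_iff₀ hL, ← Real.log_prod (fun j _ => (hQ0 j).ne')]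
      have := Real.log_le_log (Real.rpow_pos_of_pos hX0 _) hQ3
      rwa [Real.log_rpow hX0] at this) (Real.log N / L) (by
      rw [le_div_iff₀ hL]
      have := Real.log_le_log (by positivity) hN1
      rw [Real.log_rpow hX0] at this
      nlinarith) (by
      rw [div_le_iff₀ hL]
      have := Real.log_le_log hNpos hN2
      rw [Real.log_mul (by norm_num) (Real.rpow_pos_of_pos hX0 _).ne', Real.log_rpow hX0] at this
      linarith)
  refine ⟨g, ?_⟩
  obtain ⟨h1, h2, h3, h4, h5⟩ := hg (fun i => ∑ j ∈ univ.filter (fun j => g j = i),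
    Real.log (Q j) / L) (fun _ => rfl) _ rfl
  rw [szg_eq hX1 Q hQ0 g 0, szg_eq hX1 Q hQ0 g 1, szg_eq hX1 Q hQ0 g 2, szg_eq hX1 Q hQ0 g 3,
    szg_eq hX1 Q hQ0 g 4]
  simp only [← hLdef]
  set y0 := ∑ j ∈ univ.filter (fun j => g j = 0), Real.log (Q j) / L
  set y1 := ∑ j ∈ univ.filter (fun j => g j = 1), Real.log (Q j) / L
  set y2 := ∑ j ∈ univ.filter (fun j => g j = 2), Real.log (Q j) / L
  set y3 := ∑ j ∈ univ.filter (fun j => g j = 3), Real.log (Q j) / L
  set y4 := ∑ j ∈ univ.filter (fun j => g j = 4), Real.log (Q j) / L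
  set ν := Real.log N / L with hνdef
  set η := max 0 (y0 + y1 + 2 * y2 + 2 * y3 + 2 * y4 - (1 - ν)) with hηdef
  have hNν : (N : ℝ) = X ^ ν := by
    rw [Real.rpow_def_of_pos hX0, hνdef, mul_div_cancel₀ _ hL.ne', Real.exp_log hNpos]
  have hMlow : X ^ (1 - ν) / 16 ≤ M := by
    rw [Real.rpow_sub hX0, Real.rpow_one, ← hNν, div_div, div_le_iff₀ (by positivity)]
    linarith
  have hη0 : 0 ≤ η := le_max_left _ _
  -- the maximum
  set E := max 1 (X ^ y0 * X ^ y1 * (X ^ y2) ^ 2 * (X ^ y3) ^ 2 * (X ^ y4) ^ 2 / M) with hE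
  have hE1 : 1 ≤ E := le_max_left _ _
  have hE16 : E ≤ 16 * X ^ η := by
    apply max_le
    · have := Real.one_le_rpow hX1.le hη0
      linarith
    · rw [div_le_iff₀ hMpos]
      have h : X ^ y0 * X ^ y1 * (X ^ y2) ^ 2 * (X ^ y3) ^ 2 * (X ^ y4) ^ 2 =
          X ^ (y0 + y1 + 2 * y2 + 2 * y3 + 2 * y4) := by
        rw [rpow_pow' hX0.le, rpow_pow' hX0.le, rpow_pow' hX0.le, ← Real.rpow_add hX0,
          ← Real.rpow_add hX0, ← Real.rpow_add hX0, ← Real.rpow_add hX0]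
        congr 1
        push_cast
        ring
      rw [h]
      calc X ^ (y0 + y1 + 2 * y2 + 2 * y3 + 2 * y4) ≤ X ^ (η + (1 - ν)) := by
            apply Real.rpow_le_rpow_of_exponent_le hX1.le
            have := le_max_right 0 (y0 + y1 + 2 * y2 + 2 * y3 + 2 * y4 - (1 - ν))
            linarith
        _ = 16 * X ^ η * (X ^ (1 - ν) / 16) := by rw [Real.rpow_add hX0]; ring
        _ ≤ 16 * X ^ η * M := by
            apply mul_le_mul_of_nonneg_left hMlow
            positivity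
  have hE4 : E ^ 4 ≤ 16 ^ 8 * X ^ (4 * η) := by
    calc E ^ 4 ≤ (16 * X ^ η) ^ 4 := pow_le_pow_left₀ (by linarith) hE16 4
      _ = 16 ^ 4 * X ^ (4 * η) := by
          rw [mul_pow, rpow_pow' hX0.le]
          congr 2
          push_cast
          ring
      _ ≤ 16 ^ 8 * X ^ (4 * η) := by
          apply mul_le_mul_of_nonneg_right (by norm_num) (by positivity)
  have hE8 : E ^ 8 ≤ 16 ^ 8 * X ^ (8 * η) := by
    calc E ^ 8 ≤ (16 * X ^ η) ^ 8 := pow_le_pow_left₀ (by linarith) hE16 8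
      _ = 16 ^ 8 * X ^ (8 * η) := by
          rw [mul_pow, rpow_pow' hX0.le]
          congr 2
          push_cast
          ring
  have hkey : ∀ a : ℝ, 16 ^ 8 * X ^ (a - δ) ≤ X ^ (a - δ / 4) := by
    intro a
    calc 16 ^ 8 * X ^ (a - δ) ≤ X ^ (3 * δ / 4) * X ^ (a - δ) :=
          mul_le_mul_of_nonneg_right hX3 (by positivity)
      _ = X ^ (a - δ / 4) := by rw [← Real.rpow_add hX0]; congr 1; ring
  have hneg : X ^ (-(δ / 4)) = X ^ (-(δ / 4)) := rfl
  refine ⟨hMN1, hMN2, ?_, hN2, by positivity, by positivity, by positivity, by positivity,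
    by positivity, ?_, ?_, ?_, ?_, ?_⟩
  · exact (Real.rpow_le_rpow_of_exponent_le hX1.le (by linarith)).trans hN1
  · -- c1
    rw [← Real.rpow_add hX0, hNν, ← Real.rpow_add hX0]
    apply Real.rpow_le_rpow_of_exponent_le hX1.le
    linarith
  · -- c2
    have h : X ^ y0 * X ^ y1 * (X ^ y2) ^ 2 * (X ^ y3) ^ 2 = X ^ (y0 + y1 + 2 * y2 + 2 * y3) := by
      rw [rpow_pow' hX0.le, rpow_pow' hX0.le, ← Real.rpow_add hX0, ← Real.rpow_add hX0,
        ← Real.rpow_add hX0]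
      congr 1
      push_cast
      ring
    rw [h]
    calc X ^ (y0 + y1 + 2 * y2 + 2 * y3) ≤ X ^ (1 - ν - δ) :=
          Real.rpow_le_rpow_of_exponent_le hX1.le h2
      _ = 1 * X ^ (1 - ν - δ) := by rw [one_mul]
      _ ≤ (16 ^ 8 / 16) * X ^ (1 - ν - δ) := by
          apply mul_le_mul_of_nonneg_right (by norm_num) (by positivity)
      _ = (16 ^ 8 * X ^ (1 - ν - δ)) / 16 := by ring
      _ ≤ X ^ (1 - ν - δ / 4) / 16 := by
          apply div_le_div_of_nonneg_right (hkey _) (by norm_num)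
      _ = (X ^ (1 - ν) / 16) * X ^ (-(δ / 4)) := by
          rw [sub_eq_add_neg (1 - ν), Real.rpow_add hX0]; ring
      _ ≤ M * X ^ (-(δ / 4)) := mul_le_mul_of_nonneg_right hMlow (by positivity)
  · -- c3
    have h : X ^ y0 * (X ^ y2) ^ 2 * (X ^ y4) ^ 4 = X ^ (y0 + 2 * y2 + 4 * y4) := by
      rw [rpow_pow' hX0.le, rpow_pow' hX0.le, ← Real.rpow_add hX0, ← Real.rpow_add hX0]
      congr 1
      push_cast
      ring
    rw [h]
    calc X ^ (y0 + 2 * y2 + 4 * y4) * E ^ 4 ≤ X ^ (y0 + 2 * y2 + 4 * y4) * (16 ^ 8 * X ^ (4 * η)) :=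
          mul_le_mul_of_nonneg_left hE4 (by positivity)
      _ = 16 ^ 8 * X ^ (y0 + 2 * y2 + 4 * y4 + 4 * η) := by
          rw [Real.rpow_add hX0 (y0 + 2 * y2 + 4 * y4)]; ring
      _ ≤ 16 ^ 8 * X ^ (ν - δ) := by
          apply mul_le_mul_of_nonneg_left _ (by norm_num)
          exact Real.rpow_le_rpow_of_exponent_le hX1.le h3
      _ ≤ X ^ (ν - δ / 4) := hkey _
      _ = N * X ^ (-(δ / 4)) := by rw [hNν, ← Real.rpow_add hX0, sub_eq_add_neg]
  · -- c4
    have h : X ^ y1 * (X ^ y3) ^ 2 = X ^ (y1 + 2 * y3) := by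
      rw [rpow_pow' hX0.le, ← Real.rpow_add hX0]
      congr 1
      push_cast
      ring
    rw [h]
    calc X ^ (y1 + 2 * y3) * E ^ 8 ≤ X ^ (y1 + 2 * y3) * (16 ^ 8 * X ^ (8 * η)) :=
          mul_le_mul_of_nonneg_left hE8 (by positivity)
      _ = 16 ^ 8 * X ^ (y1 + 2 * y3 + 8 * η) := by rw [Real.rpow_add hX0 (y1 + 2 * y3)]; ring
      _ ≤ 16 ^ 8 * X ^ (2 * ν - δ) := by
          apply mul_le_mul_of_nonneg_left _ (by norm_num)
          exact Real.rpow_le_rpow_of_exponent_le hX1.le h4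
      _ ≤ X ^ (2 * ν - δ / 4) := hkey _
      _ = (N : ℝ) ^ 2 * X ^ (-(δ / 4)) := by
          rw [hNν, rpow_pow' hX0.le, ← Real.rpow_add hX0]
          congr 1
          push_cast
          ring
  · -- c5
    have h : X ^ y1 * (X ^ y3) ^ 2 = X ^ (y1 + 2 * y3) := by
      rw [rpow_pow' hX0.le, ← Real.rpow_add hX0]
      congr 1
      push_cast
      ring
    rw [h]
    calc E ^ 8 * X ^ (δ / 4) ≤ (16 ^ 8 * X ^ (8 * η)) * X ^ (δ / 4) :=
          mul_le_mul_of_nonneg_right hE8 (by positivity)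
      _ = 16 ^ 8 * X ^ (8 * η + 5 * δ / 4 - δ) := by
          rw [mul_assoc, ← Real.rpow_add hX0]
          congr 2
          ring
      _ ≤ X ^ (8 * η + 5 * δ / 4 - δ / 4) := hkey _
      _ ≤ X ^ (y1 + 2 * y3) := by
          apply Real.rpow_le_rpow_of_exponent_le hX1.le
          linarith

lemma groupB {K : ℕ} {δ : ℝ} (hδ : 0 < δ) (hδ1 : δ ≤ 1 / 10) {t : Fin K → ℝ} (ht0 : ∀ j, 0 ≤ t j)
    (ht : ∑ j, t j ≤ 27 / 50) (hG : GoodT3 δ t) :
    ∀ᶠ X : ℝ in atTop, ∀ Q : Fin K → ℝ, (∀ j, 1 / 2 ≤ Q j) → (∀ j, Q j ≤ X ^ t j) →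
      X ^ (1 / 2 - δ) ≤ ∏ j, Q j → ∀ M N : ℕ, X / 16 ≤ (M : ℝ) * N → (M : ℝ) * N ≤ 16 * X →
      X ^ (5 / 16 - δ / 4 : ℝ) ≤ N → (N : ℝ) ≤ X ^ (3 / 8 + δ / 4 : ℝ) →
      ∃ g : Fin K → Fin 5, (∀ j, g j ≠ 4) ∧
        SzS (δ / 4) X M N (szg Q g 0) (szg Q g 1) (szg Q g 2) (szg Q g 3) := by
  have e1 : ∀ᶠ X : ℝ in atTop, Real.log 16 ≤ δ * Real.log X :=
    (Real.tendsto_log_atTop.const_mul_atTop hδ).eventually_ge_atTop _
  have e2 : ∀ᶠ X : ℝ in atTop, (16 : ℝ) ^ 8 ≤ X ^ (3 * δ / 4) :=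
    (tendsto_rpow_atTop (by positivity)).eventually_ge_atTop _
  have e3 : ∀ᶠ X : ℝ in atTop, (16 : ℝ) ≤ X ^ (1 / 12 : ℝ) :=
    (tendsto_rpow_atTop (by norm_num)).eventually_ge_atTop _
  filter_upwards [eventually_gt_atTop 1, e1, e2, e3] with X hX1 hX2 hX3 hX4
  intro Q hQ1 hQ2 hQ3 M N hMN1 hMN2 hN1 hN2
  have hX0 : 0 < X := by linarith
  have hL : 0 < Real.log X := Real.log_pos hX1
  have hQ0 : ∀ j, 0 < Q j := fun j => lt_of_lt_of_le (by norm_num) (hQ1 j)
  have hNpos : (0 : ℝ) < N := lt_of_lt_of_le (by positivity) hN1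
  have hMpos : (0 : ℝ) < M := by
    by_contra h
    have : (M : ℝ) = 0 := le_antisymm (not_lt.1 h) (Nat.cast_nonneg _)
    rw [this, zero_mul] at hMN1
    linarith
  set L := Real.log X with hLdef
  have hlog2 : Real.log 2 ≤ Real.log 16 := Real.log_le_log (by norm_num) (by norm_num)
  have hxt : ∀ j, Real.log (Q j) / L ≤ t j := by
    intro j
    rw [div_le_iff₀ hL]
    have := Real.log_le_log (hQ0 j) (hQ2 j)
    rwa [Real.log_rpow hX0] at this
  obtain ⟨g, hg4, hg⟩ := hG.2 (fun j => Real.log (Q j) / L) (fun j => by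
      refine ⟨?_, hxt j⟩
      rw [le_div_iff₀ hL]
      have : Real.log (1 / 2) ≤ Real.log (Q j) := Real.log_le_log (by norm_num) (hQ1 j)
      rw [one_div, Real.log_inv] at this
      linarith) (by
      rw [← Finset.sum_div, le_div_iff₀ hL, ← Real.log_prod (fun j _ => (hQ0 j).ne')]
      have := Real.log_le_log (Real.rpow_pos_of_pos hX0 _) hQ3
      rwa [Real.log_rpow hX0] at this) (Real.log N / L) (by
      rw [le_div_iff₀ hL]
      have := Real.log_le_log (by positivity) hN1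
      rw [Real.log_rpow hX0] at this
      nlinarith) (by
      rw [div_le_iff₀ hL]
      have := Real.log_le_log hNpos hN2
      rw [Real.log_rpow hX0] at this
      nlinarith)
  refine ⟨g, hg4, ?_⟩
  obtain ⟨h1, h3, h4, h5⟩ := hg (fun i => ∑ j ∈ univ.filter (fun j => g j = i),
    Real.log (Q j) / L) (fun _ => rfl) _ rfl
  rw [szg_eq hX1 Q hQ0 g 0, szg_eq hX1 Q hQ0 g 1, szg_eq hX1 Q hQ0 g 2, szg_eq hX1 Q hQ0 g 3]
  simp only [← hLdef]
  have h23 : (∑ j ∈ univ.filter (fun j => g j = 2), Real.log (Q j) / L) +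
      ∑ j ∈ univ.filter (fun j => g j = 3), Real.log (Q j) / L ≤ 1 := by
    have hdis : Disjoint (univ.filter (fun j => g j = 2)) (univ.filter (fun j => g j = 3)) := by
      rw [Finset.disjoint_filter]
      intro j _ h2 h3
      rw [h2] at h3
      exact absurd h3 (by decide)
    rw [← Finset.sum_union hdis]
    calc ∑ j ∈ univ.filter (fun j => g j = 2) ∪ univ.filter (fun j => g j = 3), Real.log (Q j) / L
        ≤ ∑ j ∈ univ.filter (fun j => g j = 2) ∪ univ.filter (fun j => g j = 3), t j :=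
          sum_le_sum fun j _ => hxt j
      _ ≤ ∑ j, t j := sum_le_sum_of_subset_of_nonneg (subset_univ _) fun j _ _ => ht0 j
      _ ≤ 1 := ht.trans (by norm_num)
  set y0 := ∑ j ∈ univ.filter (fun j => g j = 0), Real.log (Q j) / L
  set y1 := ∑ j ∈ univ.filter (fun j => g j = 1), Real.log (Q j) / L
  set y2 := ∑ j ∈ univ.filter (fun j => g j = 2), Real.log (Q j) / L
  set y3 := ∑ j ∈ univ.filter (fun j => g j = 3), Real.log (Q j) / L
  set ν := Real.log N / L with hνdef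
  set η := max 0 (y0 + y1 + 2 * y2 + 2 * y3 - (1 - ν)) with hηdef
  have hNν : (N : ℝ) = X ^ ν := by
    rw [Real.rpow_def_of_pos hX0, hνdef, mul_div_cancel₀ _ hL.ne', Real.exp_log hNpos]
  have hMlow : X ^ (1 - ν) / 16 ≤ M := by
    rw [Real.rpow_sub hX0, Real.rpow_one, ← hNν, div_div, div_le_iff₀ (by positivity)]
    linarith
  have hη0 : 0 ≤ η := le_max_left _ _
  -- the maximum
  set E := max 1 (X ^ y0 * X ^ y1 * (X ^ y2) ^ 2 * (X ^ y3) ^ 2 / M) with hE
  have hE1 : 1 ≤ E := le_max_left _ _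
  have hE16 : E ≤ 16 * X ^ η := by
    apply max_le
    · have := Real.one_le_rpow hX1.le hη0
      linarith
    · rw [div_le_iff₀ hMpos]
      have h : X ^ y0 * X ^ y1 * (X ^ y2) ^ 2 * (X ^ y3) ^ 2 =
          X ^ (y0 + y1 + 2 * y2 + 2 * y3) := by
        rw [rpow_pow' hX0.le, rpow_pow' hX0.le, ← Real.rpow_add hX0,
          ← Real.rpow_add hX0, ← Real.rpow_add hX0]
        congr 1
        push_cast
        ring
      rw [h]
      calc X ^ (y0 + y1 + 2 * y2 + 2 * y3) ≤ X ^ (η + (1 - ν)) := by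
            apply Real.rpow_le_rpow_of_exponent_le hX1.le
            have := le_max_right 0 (y0 + y1 + 2 * y2 + 2 * y3 - (1 - ν))
            linarith
        _ = 16 * X ^ η * (X ^ (1 - ν) / 16) := by rw [Real.rpow_add hX0]; ring
        _ ≤ 16 * X ^ η * M := by
            apply mul_le_mul_of_nonneg_left hMlow
            positivity
  have hE2 : E ^ 2 ≤ 16 ^ 8 * X ^ (2 * η) := by
    calc E ^ 2 ≤ (16 * X ^ η) ^ 2 := pow_le_pow_left₀ (by linarith) hE16 2
      _ = 16 ^ 2 * X ^ (2 * η) := by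
          rw [mul_pow, rpow_pow' hX0.le]
          congr 2
          push_cast
          ring
      _ ≤ 16 ^ 8 * X ^ (2 * η) := by
          apply mul_le_mul_of_nonneg_right (by norm_num) (by positivity)
  have hE4 : E ^ 4 ≤ 16 ^ 8 * X ^ (4 * η) := by
    calc E ^ 4 ≤ (16 * X ^ η) ^ 4 := pow_le_pow_left₀ (by linarith) hE16 4
      _ = 16 ^ 4 * X ^ (4 * η) := by
          rw [mul_pow, rpow_pow' hX0.le]
          congr 2
          push_cast
          ring
      _ ≤ 16 ^ 8 * X ^ (4 * η) := by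
          apply mul_le_mul_of_nonneg_right (by norm_num) (by positivity)
  have hkey : ∀ a : ℝ, 16 ^ 8 * X ^ (a - δ) ≤ X ^ (a - δ / 4) := by
    intro a
    calc 16 ^ 8 * X ^ (a - δ) ≤ X ^ (3 * δ / 4) * X ^ (a - δ) :=
          mul_le_mul_of_nonneg_right hX3 (by positivity)
      _ = X ^ (a - δ / 4) := by rw [← Real.rpow_add hX0]; congr 1; ring
  refine ⟨hMN1, hMN2, ?_, ?_, by positivity, by positivity, by positivity, by positivity,
    ?_, ?_, ?_, ?_, ?_⟩
  · exact (Real.rpow_le_rpow_of_exponent_le hX1.le (by linarith)).trans hN1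
  · refine hN2.trans ?_
    have h6 : X ^ (3 / 8 + δ / 4 : ℝ) ≤ X ^ (1 / 2 : ℝ) :=
      Real.rpow_le_rpow_of_exponent_le hX1.le (by linarith)
    have h7 : 0 < X ^ (1 / 2 : ℝ) := Real.rpow_pos_of_pos hX0 _
    linarith
  · rw [← Real.rpow_add hX0]
    calc X ^ (y2 + y3) ≤ X ^ (1 : ℝ) := Real.rpow_le_rpow_of_exponent_le hX1.le h23
      _ = X := Real.rpow_one X
  · -- c1
    rw [← Real.rpow_add hX0, hNν, ← Real.rpow_add hX0]
    apply Real.rpow_le_rpow_of_exponent_le hX1.le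
    linarith
  · -- c3
    have h : X ^ y0 * (X ^ y2) ^ 2 = X ^ (y0 + 2 * y2) := by
      rw [rpow_pow' hX0.le, ← Real.rpow_add hX0]
      congr 1
      push_cast
      ring
    rw [h]
    calc X ^ (y0 + 2 * y2) * E ^ 2 ≤ X ^ (y0 + 2 * y2) * (16 ^ 8 * X ^ (2 * η)) :=
          mul_le_mul_of_nonneg_left hE2 (by positivity)
      _ = 16 ^ 8 * X ^ (y0 + 2 * y2 + 2 * η) := by
          rw [Real.rpow_add hX0 (y0 + 2 * y2)]; ring
      _ ≤ 16 ^ 8 * X ^ (ν - δ) := by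
          apply mul_le_mul_of_nonneg_left _ (by norm_num)
          exact Real.rpow_le_rpow_of_exponent_le hX1.le h3
      _ ≤ X ^ (ν - δ / 4) := hkey _
      _ = N * X ^ (-(δ / 4)) := by rw [hNν, ← Real.rpow_add hX0, sub_eq_add_neg]
  · -- c4
    have h : X ^ y1 * (X ^ y3) ^ 2 = X ^ (y1 + 2 * y3) := by
      rw [rpow_pow' hX0.le, ← Real.rpow_add hX0]
      congr 1
      push_cast
      ring
    rw [h]
    calc X ^ (y1 + 2 * y3) * E ^ 4 ≤ X ^ (y1 + 2 * y3) * (16 ^ 8 * X ^ (4 * η)) :=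
          mul_le_mul_of_nonneg_left hE4 (by positivity)
      _ = 16 ^ 8 * X ^ (y1 + 2 * y3 + 4 * η) := by rw [Real.rpow_add hX0 (y1 + 2 * y3)]; ring
      _ ≤ 16 ^ 8 * X ^ (2 * ν - δ) := by
          apply mul_le_mul_of_nonneg_left _ (by norm_num)
          exact Real.rpow_le_rpow_of_exponent_le hX1.le h4
      _ ≤ X ^ (2 * ν - δ / 4) := hkey _
      _ = (N : ℝ) ^ 2 * X ^ (-(δ / 4)) := by
          rw [hNν, rpow_pow' hX0.le, ← Real.rpow_add hX0]
          congr 1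
          push_cast
          ring
  · -- c5
    have h : X ^ y1 * (X ^ y3) ^ 2 = X ^ (y1 + 2 * y3) := by
      rw [rpow_pow' hX0.le, ← Real.rpow_add hX0]
      congr 1
      push_cast
      ring
    rw [h]
    calc E ^ 4 * X ^ (δ / 4) ≤ (16 ^ 8 * X ^ (4 * η)) * X ^ (δ / 4) :=
          mul_le_mul_of_nonneg_right hE4 (by positivity)
      _ = 16 ^ 8 * X ^ (4 * η + 5 * δ / 4 - δ) := by
          rw [mul_assoc, ← Real.rpow_add hX0]
          congr 2
          ring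
      _ ≤ X ^ (4 * η + 5 * δ / 4 - δ / 4) := hkey _
      _ ≤ X ^ (y1 + 2 * y3) := by
          apply Real.rpow_le_rpow_of_exponent_le hX1.le
          linarith

lemma groupOK3_of_good {K : ℕ} {δ : ℝ} (hδ : 0 < δ) (hδ1 : δ ≤ 1 / 10) {t : Fin K → ℝ} (ht0 : ∀ j, 0 ≤ t j)
    (ht : ∑ j, t j ≤ 27 / 50) (hG : GoodT3 δ t) :
    ∀ᶠ X : ℝ in atTop, ∀ Q : Fin K → ℝ, (∀ j, 1 / 2 ≤ Q j) → (∀ j, Q j ≤ X ^ t j) →
      X ^ (1 / 2 - δ) ≤ ∏ j, Q j → GroupOK3 (δ / 4) X Q := by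
  filter_upwards [groupA hδ hδ1 hG, groupB hδ hδ1 ht0 ht hG] with X h1 h2 Q q1 q2 q3
  exact ⟨h1 Q q1 q2 q3, h2 Q q1 q2 q3⟩

open Pool.Agent.H378R2 (EPhi Phi)

/-- the equidistribution theorem -/
theorem zz3 (hZ : S_Z3) : S_ZZ3 := by
  classical
  intro K h W b hyp t ht0 ht hG bq hbq A C
  obtain ⟨δ0, hδ0, hG0⟩ := hG
  set δ : ℝ := min δ0 (1 / 10) with hδdef
  have hδ : 0 < δ := lt_min hδ0 (by norm_num)
  have hδ1 : δ ≤ 1 / 10 := min_le_right _ _
  have hGδ : GoodT3 δ t := GoodT3_mono (min_le_left _ _) hG0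
  obtain ⟨C', htriv⟩ := triv_bound h W b hyp (2 * C)
  have hgrp := groupOK3_of_good hδ hδ1 ht0 ht hGδ
  have hbox := hZ K h W b hyp (δ / 4) (by positivity) (2 * (A + 1) + C' + 2 * K)
  have hbv := Pool.Agent.H95R2.BG.bv_tent W hyp.wpos (1 / 2 - δ / 2) (by linarith) (K + C) (A + 1)
  have e4 : ∀ᶠ X : ℝ in atTop, (2 : ℝ) ^ K ≤ X ^ (δ / 2) :=
    (tendsto_rpow_atTop (by positivity)).eventually_ge_atTop _
  filter_upwards [eventually_gt_atTop 1, htriv, hgrp, hbox, hbv, e4,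
    Real.tendsto_log_atTop.eventually_ge_atTop 3] with X hX1 htriv hgrp hbox hbv hX4 hL
  have hX0 : 0 < X := by linarith
  have hL0 : 0 < Real.log X := by linarith
  set SA := (Fintype.piFinset (fun j => Icc 1 ⌊X ^ (t j)⌋₊)).filter
    (fun q => Squarefree (W * Pr q)) with hSA
  have hq1 : ∀ q ∈ SA, ∀ j, 1 ≤ q j ∧ (q j : ℝ) ≤ X ^ t j := by
    intro q hq j
    rw [hSA, Finset.mem_filter, Fintype.mem_piFinset] at hq
    have := hq.1 j
    rw [mem_Icc] at this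
    exact ⟨this.1, (Nat.le_floor_iff (by positivity)).1 this.2⟩
  have hsf : ∀ q ∈ SA, Squarefree (W * Pr q) := fun q hq => (Finset.mem_filter.1 hq).2
  have hPrX : ∀ q ∈ SA, (Pr q : ℝ) ≤ X ^ (27 / 50 : ℝ) := by
    intro q hq
    unfold Pr
    push_cast
    calc ∏ j, (q j : ℝ) ≤ ∏ j, X ^ t j :=
          Finset.prod_le_prod (fun j _ => Nat.cast_nonneg _) fun j _ => (hq1 q hq j).2
      _ = X ^ (∑ j, t j) := by rw [Real.rpow_sum_of_pos hX0]
      _ ≤ X ^ (27 / 50 : ℝ) := Real.rpow_le_rpow_of_exponent_le hX1.le ht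
  have hPrX' : ∀ q ∈ SA, (Pr q : ℝ) ≤ X := by
    intro q hq
    refine (hPrX q hq).trans ?_
    calc X ^ (27 / 50 : ℝ) ≤ X ^ (1 : ℝ) := Real.rpow_le_rpow_of_exponent_le hX1.le (by norm_num)
      _ = X := Real.rpow_one X
  set S1 := SA.filter (fun q => (Pr q : ℝ) ≤ X ^ (1 / 2 - δ / 2)) with hS1
  set S2 := SA.filter (fun q => ¬ (Pr q : ℝ) ≤ X ^ (1 / 2 - δ / 2)) with hS2
  rw [← Finset.sum_filter_add_sum_filter_not SA (fun q => (Pr q : ℝ) ≤ X ^ (1 / 2 - δ / 2))]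
  -- small moduli
  have hsmall : ∑ q ∈ S1, tau (Pr q) ^ C * |EPhi X (W * Pr q) (bq q)| ≤
      X / (Real.log X) ^ (A + 1) := by
    obtain ⟨B, hB1, hB2⟩ := Pool.Agent.H95R2.BG.S2.worst X W hyp.wpos
    calc ∑ q ∈ S1, tau (Pr q) ^ C * |EPhi X (W * Pr q) (bq q)|
        ≤ ∑ q ∈ S1, tau (Pr q) ^ C * |EPhi X (W * Pr q) (B (Pr q))| := by
          refine Finset.sum_le_sum fun q hq => ?_
          rw [hS1, Finset.mem_filter] at hq
          apply mul_le_mul_of_nonneg_left _ (pow_nonneg (tau_nonneg _) _)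
          apply hB2
          · exact Nat.one_le_iff_ne_zero.2 ((hsf q hq.1).of_mul_right).ne_zero
          · exact bq_coprime hyp hbq (hsf q hq.1)
      _ ≤ ∑ m ∈ (Icc 1 ⌊X ^ (1 / 2 - δ / 2)⌋₊).filter (fun q => Squarefree q),
            tau m ^ K * (tau m ^ C * |EPhi X (W * m) (B m)|) := by
          apply fiber_le S1 _ _ _ (fun m => tau m ^ C * |EPhi X (W * m) (B m)|)
            (fun m => mul_nonneg (pow_nonneg (tau_nonneg _) _) (abs_nonneg _))
          · intro m hm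
            rw [Finset.mem_filter] at hm
            exact hm.2.ne_zero
          · intro q hq
            rw [hS1, Finset.mem_filter] at hq
            have h1 : Squarefree (Pr q) := (hsf q hq.1).of_mul_right
            rw [Finset.mem_filter, mem_Icc]
            exact ⟨⟨Nat.one_le_iff_ne_zero.2 h1.ne_zero, Nat.le_floor hq.2⟩, h1⟩
      _ = ∑ m ∈ (Icc 1 ⌊X ^ (1 / 2 - δ / 2)⌋₊).filter (fun q => Squarefree q),
            (m.divisors.card : ℝ) ^ (K + C) * |EPhi X (W * m) (B m)| := by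
          refine Finset.sum_congr rfl fun m _ => ?_
          rw [← mul_assoc, ← pow_add]
          rfl
      _ ≤ X / (Real.log X) ^ (A + 1) := hbv B hB1
  -- the boxes
  set m := ⌊1 + 2 * Real.log X⌋₊ with hm
  set BI := Fintype.piFinset (fun _ : Fin K => range (m + 1)) with hBI
  have hBIcard : (BI.card : ℝ) ≤ (Real.log X) ^ (2 * K) := by
    rw [hBI, Fintype.card_piFinset_const, card_range]
    push_cast
    rw [pow_mul]
    apply pow_le_pow_left₀ (by positivity)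
    have : (m : ℝ) ≤ 1 + 2 * Real.log X := Nat.floor_le (by positivity)
    nlinarith
  have hlarge1 : ∑ q ∈ S2, |EPhi X (W * Pr q) (bq q)| ≤
      (Real.log X) ^ (2 * K) * (X / (Real.log X) ^ (2 * (A + 1) + C' + 2 * K)) := by
    have hmaps : ∀ q ∈ S2, (fun j => Nat.clog 2 (q j)) ∈ BI := by
      intro q hq
      rw [hS2, Finset.mem_filter] at hq
      rw [hBI, Fintype.mem_piFinset]
      intro j
      rw [mem_range]
      have h1 := (hq1 q hq.1 j).1
      have h2 : (q j : ℝ) ≤ X := by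
        refine le_trans ?_ (hPrX' q hq.1)
        exact_mod_cast Nat.le_of_dvd (Nat.pos_of_ne_zero ((hsf q hq.1).of_mul_right).ne_zero)
          (Finset.dvd_prod_of_mem _ (mem_univ j))
      exact Nat.lt_succ_of_le (clog_le h1 h2)
    rw [← Finset.sum_fiberwise_of_maps_to hmaps]
    calc ∑ i ∈ BI, ∑ q ∈ S2.filter (fun q => (fun j => Nat.clog 2 (q j)) = i),
          |EPhi X (W * Pr q) (bq q)|
        ≤ ∑ i ∈ BI, X / (Real.log X) ^ (2 * (A + 1) + C' + 2 * K) := by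
          refine Finset.sum_le_sum fun i _ => ?_
          rcases (S2.filter (fun q => (fun j => Nat.clog 2 (q j)) = i)).eq_empty_or_nonempty with
            he | ⟨q0, hq0⟩
          · rw [he, Finset.sum_empty]
            positivity
          · rw [Finset.mem_filter, hS2, Finset.mem_filter] at hq0
            obtain ⟨⟨hq0A, hq0b⟩, hq0i⟩ := hq0
            have hQlt : ∀ j, (2 : ℝ) ^ (i j) / 2 < q0 j := by
              intro j
              rw [← hq0i]
              exact box_lt (hq1 q0 hq0A j).1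
            have hQle : ∀ j, (q0 j : ℝ) ≤ 2 * ((2 : ℝ) ^ (i j) / 2) := by
              intro j
              rw [← hq0i]
              exact le_box _
            have hprodle : ∏ j, (2 : ℝ) ^ (i j) / 2 ≤ Pr q0 := by
              unfold Pr
              push_cast
              exact Finset.prod_le_prod (fun j _ => by positivity) fun j _ => (hQlt j).le
            apply hbox (fun j => (2 : ℝ) ^ (i j) / 2) (fun j => by positivity)
            · refine hprodle.trans ((hPrX q0 hq0A).trans ?_)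
              exact Real.rpow_le_rpow_of_exponent_le hX1.le (by norm_num)
            · apply hgrp
              · intro j
                have : (1 : ℝ) ≤ 2 ^ (i j) := one_le_pow₀ (by norm_num)
                linarith
              · intro j
                exact (hQlt j).le.trans (hq1 q0 hq0A j).2
              · have h1 : (Pr q0 : ℝ) ≤ 2 ^ K * ∏ j, (2 : ℝ) ^ (i j) / 2 := by
                  calc (Pr q0 : ℝ) = ∏ j, (q0 j : ℝ) := by unfold Pr; push_cast; rfl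
                    _ ≤ ∏ j, 2 * ((2 : ℝ) ^ (i j) / 2) :=
                      Finset.prod_le_prod (fun j _ => Nat.cast_nonneg _) fun j _ => hQle j
                    _ = 2 ^ K * ∏ j, (2 : ℝ) ^ (i j) / 2 := by
                      rw [Finset.prod_mul_distrib, Finset.prod_const, Finset.card_univ,
                        Fintype.card_fin]
                have h2 : X ^ (1 / 2 - δ / 2) < 2 ^ K * ∏ j, (2 : ℝ) ^ (i j) / 2 :=
                  lt_of_lt_of_le (not_le.1 hq0b) h1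
                have h3 : X ^ (1 / 2 - δ / 2) = X ^ (δ / 2) * X ^ (1 / 2 - δ) := by
                  rw [← Real.rpow_add hX0]
                  congr 1
                  ring
                have hP0 : 0 < ∏ j, (2 : ℝ) ^ (i j) / 2 := Finset.prod_pos fun j _ => by positivity
                have h4 : X ^ (δ / 2) * X ^ (1 / 2 - δ) < X ^ (δ / 2) * ∏ j, (2 : ℝ) ^ (i j) / 2 := by
                  rw [← h3]
                  exact lt_of_lt_of_le h2 (mul_le_mul_of_nonneg_right hX4 hP0.le)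
                exact (lt_of_mul_lt_mul_left h4 (by positivity)).le
            · exact hbq
            · intro q hq
              rw [Finset.mem_filter, hS2, Finset.mem_filter] at hq
              obtain ⟨⟨hqA, -⟩, hqi⟩ := hq
              refine ⟨hsf q hqA, fun j => ?_⟩
              rw [← hqi]
              exact ⟨box_lt (hq1 q hqA j).1, le_box _⟩
      _ = BI.card * (X / (Real.log X) ^ (2 * (A + 1) + C' + 2 * K)) := by
          rw [Finset.sum_const, nsmul_eq_mul]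
      _ ≤ _ := mul_le_mul_of_nonneg_right hBIcard (by positivity)
  have hlarge2 : ∑ q ∈ S2, tau (Pr q) ^ (2 * C) * |EPhi X (W * Pr q) (bq q)| ≤
      X * (Real.log X) ^ C' := by
    apply htriv bq hbq
    intro q hq
    rw [hS2, Finset.mem_filter] at hq
    exact ⟨hsf q hq.1, hPrX' q hq.1⟩
  have hlarge : ∑ q ∈ S2, tau (Pr q) ^ C * |EPhi X (W * Pr q) (bq q)| ≤
      X / (Real.log X) ^ (A + 1) := by
    have hcs := Finset.sum_mul_sq_le_sq_mul_sq S2
      (fun q => tau (Pr q) ^ C * Real.sqrt |EPhi X (W * Pr q) (bq q)|)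
      (fun q => Real.sqrt |EPhi X (W * Pr q) (bq q)|)
    have e1 : ∀ q : Fin K → ℕ, tau (Pr q) ^ C * Real.sqrt |EPhi X (W * Pr q) (bq q)| *
        Real.sqrt |EPhi X (W * Pr q) (bq q)| = tau (Pr q) ^ C * |EPhi X (W * Pr q) (bq q)| := by
      intro q
      rw [mul_assoc, Real.mul_self_sqrt (abs_nonneg _)]
    have e2 : ∀ q : Fin K → ℕ, (tau (Pr q) ^ C * Real.sqrt |EPhi X (W * Pr q) (bq q)|) ^ 2 =
        tau (Pr q) ^ (2 * C) * |EPhi X (W * Pr q) (bq q)| := by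
      intro q
      rw [mul_pow, Real.sq_sqrt (abs_nonneg _), ← pow_mul, mul_comm C 2]
    simp only [e1, e2, Real.sq_sqrt (abs_nonneg _)] at hcs
    have h0 : 0 ≤ ∑ q ∈ S2, |EPhi X (W * Pr q) (bq q)| := Finset.sum_nonneg fun _ _ => abs_nonneg _
    have h5 : (∑ q ∈ S2, tau (Pr q) ^ C * |EPhi X (W * Pr q) (bq q)|) ^ 2 ≤
        (X / (Real.log X) ^ (A + 1)) ^ 2 := by
      refine hcs.trans ?_
      calc (∑ q ∈ S2, tau (Pr q) ^ (2 * C) * |EPhi X (W * Pr q) (bq q)|) *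
            ∑ q ∈ S2, |EPhi X (W * Pr q) (bq q)|
          ≤ (X * (Real.log X) ^ C') *
            ((Real.log X) ^ (2 * K) * (X / (Real.log X) ^ (2 * (A + 1) + C' + 2 * K))) :=
            mul_le_mul hlarge2 hlarge1 h0 (by positivity)
        _ = (X / (Real.log X) ^ (A + 1)) ^ 2 := by
            rw [div_pow, ← pow_mul, pow_add, pow_add]
            field_simp
            ring
    exact (sq_le_sq₀ (Finset.sum_nonneg fun q _ =>
      mul_nonneg (pow_nonneg (tau_nonneg _) _) (abs_nonneg _)) (by positivity)).1 h5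
  calc _ ≤ X / (Real.log X) ^ (A + 1) + X / (Real.log X) ^ (A + 1) := add_le_add hsmall hlarge
    _ = (X / (Real.log X) ^ A) * (2 / Real.log X) := by
        rw [pow_succ]
        field_simp
        ring
    _ ≤ (X / (Real.log X) ^ A) * 1 := by
        apply mul_le_mul_of_nonneg_left _ (by positivity)
        rw [div_le_one hL0]
        linarith
    _ = X / (Real.log X) ^ A := mul_one _

end Pool.Agent.J4H35.ZZ
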