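import Mathlib
import Pool.Agent.J4H35.SM.Main
import Pool.Agent.J4H35.ZZ.G

/-! The equidistribution theorem, unconditionally. -/

namespace Pool.Agent.J4H35.ZZ

open Pool.Agent.Y826.Z

theorem s_lam3 : Pool.Agent.J4H35.LM.S_LAM3 := Pool.Agent.J4H35.LM.lam3 s_tii Pool.Agent.J4H35.SM.s_tiiS

theorem s_zz3 : S_ZZ3 := zz3 (zbox3 s_lam3)

end Pool.Agent.J4H35.ZZ
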